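import Pool.Agent.X140.CP.Inv
import Pool.Agent.H176.DT.C13
import Pool.Agent.H176.DT.H8
import Pool.Agent.TH188.QS.Cls
import Pool.Agent.TH188.QS.Bases3

/-!
# The base cases
-/

set_option autoImplicit false
set_option linter.unusedSectionVars false
set_option linter.unusedVariables false

universe u

open IsLocalRing TensorProduct Pool.Agent.W418.LU2 Pool.Agent.H176.DT

namespace Pool.Agent.X140.CP

section base

variable {K : Type u} [Field K] (V : ValuationSubring K)

/-- The base of the tower. -/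
theorem inv_base (L : Subfield K) (R₀ : Subring L) [hN : IsNoetherianRing R₀] (G : Set L)
    (hG : G.Finite) (hM : Mod (V.comap L.subtype) (Subring.closure ((R₀ : Set L) ∪ G)))
    (hLU : LogUnif (V.comap L.subtype) (Subring.closure ((R₀ : Set L) ∪ G))) :
    Inv V (R₀.map L.subtype) L.subtype := by
  have hpre : L.subtype ⁻¹' ((R₀.map L.subtype : Subring K) : Set K) = (R₀ : Set L) := by
    ext z
    constructor
    · rintro ⟨w, hw, h⟩
      have h1 : w = z := Subtype.ext h
      rwa [h1] at hw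
    · intro hz
      exact ⟨z, hz, rfl⟩
  have hN' : IsNoetherianRing (Subring.closure ((R₀ : Set L) ∪ G)) := p_noe R₀ G hG
  refine ⟨?_, G, hG, ?_, ?_⟩
  · rintro _ ⟨w, -, rfl⟩
    exact ⟨w, rfl⟩
  · rw [hpre]
    exact hM
  · rw [hpre]
    exact p_base _ _ hM hLU

/-- `V` is the composite of the valuation ring `V₁` and the valuation ring `W` of its residue
field. -/
def IsComposite {K : Type u} [Field K] (V V₁ : ValuationSubring K)
    (W : ValuationSubring (ResidueField V₁)) : Prop :=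
  ∀ z : K, z ∈ V ↔ ∃ hz : z ∈ V₁, residue V₁ ⟨z, hz⟩ ∈ W

/-- Discrete valuations of rank `n`. -/
def IsDiscreteOfRank : ℕ → ∀ {K : Type u} [Field K], ValuationSubring K → Prop
  | 0, _, _, V => V = ⊤
  | n + 1, K, _, V => ∃ (V₁ : ValuationSubring K) (W : ValuationSubring (ResidueField V₁)),
      IsComposite V V₁ W ∧ IsDiscreteValuationRing V₁ ∧ IsDiscreteOfRank n W

lemma sd_of_discrete {k : Type u} [CommRing k] (n : ℕ) : ∀ {K : Type u} [Field K] (ρ : k →+* K)
    (V : ValuationSubring K), (∀ c, ρ c ∈ V) → IsDiscreteOfRank n V →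
      Pool.Agent.TH188.QS.SD k n ρ V := by
  induction n with
  | zero => exact fun ρ V _ h => h
  | succ n ih =>
    intro K _ ρ V hρ h
    obtain ⟨V₁, W, hc, hd, hW⟩ := h
    have h1 : ∀ c, ρ c ∈ V₁.toSubring := fun c => ((hc _).1 (hρ c)).1
    refine ⟨V₁, W, h1, hc, Or.inl hd, ih _ _ (fun c => ?_) hW⟩
    exact ((hc _).1 (hρ c)).2

lemma hj_field {k : Type u} [Field k] : Pool.Agent.TH188.QS.HJ k := by
  refine Pool.Agent.TH188.QS.BR.hj (fun 𝔭 h𝔭 => Or.inl ?_)
  have h1 : 𝔭.IsMaximal := by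
    rcases Ideal.eq_bot_or_top 𝔭 with h2 | h2
    · rw [h2]; exact Ideal.bot_isMaximal
    · exact absurd h2 h𝔭.ne_top
  exact (Ideal.Quotient.maximal_ideal_iff_isField_quotient 𝔭).1 h1

variable {k : Type u} [Field k] [Algebra k K]

/-- Discrete valuations. -/
theorem inv_discrete (hkV : ∀ c : k, algebraMap k K c ∈ V) (L : Subfield K) (T : Set K)
    (hT : T.Finite) (hL : Subfield.closure (((algebraMap k K).range : Set K) ∪ T) = L) (n : ℕ)
    (hV : IsDiscreteOfRank n (V.comap L.subtype)) :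
    Inv V (algebraMap k K).range L.subtype := by
  classical
  have hkL : ∀ c : k, algebraMap k K c ∈ L := fun c => by
    rw [← hL]
    exact Subfield.subset_closure (Or.inl ⟨c, rfl⟩)
  have hTL : ∀ t ∈ T, t ∈ L := fun t ht => by
    rw [← hL]
    exact Subfield.subset_closure (Or.inr ht)
  let ρ : k →+* L := (algebraMap k K).codRestrict L hkL
  -- generators in the valuation ring
  let T₀ : Set L := {z | (z : K) ∈ T}
  have hT₀ : T₀.Finite := hT.preimage Subtype.val_injective.injOn
  let inv' : L → L := fun z => if (z : K) ∈ V then z else z⁻¹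
  let G : Set L := inv' '' T₀
  have hG : G.Finite := hT₀.image _
  have hGV : ∀ g ∈ G, (g : K) ∈ V := by
    rintro _ ⟨z, hz, rfl⟩
    change ((if (z : K) ∈ V then z else z⁻¹ : L) : K) ∈ V
    split_ifs with h
    · exact h
    · exact (V.mem_or_inv_mem (z : K)).resolve_left h
  set A := Subring.closure ((ρ.range : Set L) ∪ G) with hA
  have hAV : A ≤ (V.comap L.subtype).toSubring := by
    rw [hA, Subring.closure_le]
    rintro z (⟨c, rfl⟩ | hz)
    · exact hkV c
    · exact hGV z hz
  have hfr : ∀ z : L, ∃ a ∈ A, ∃ b ∈ A, b ≠ 0 ∧ z = a * b⁻¹ := by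
    intro z
    have h1 : z ∈ Subfield.closure ((ρ.range : Set L) ∪ G) := by
      have h2 : L ≤ (Subfield.closure ((ρ.range : Set L) ∪ G)).map L.subtype := by
        conv_lhs => rw [← hL]
        rw [Subfield.closure_le]
        rintro w (⟨c, rfl⟩ | hw)
        · exact ⟨ρ c, Subfield.subset_closure (Or.inl ⟨c, rfl⟩), rfl⟩
        · have h3 : inv' ⟨w, hTL w hw⟩ ∈ Subfield.closure ((ρ.range : Set L) ∪ G) :=
            Subfield.subset_closure (Or.inr ⟨⟨w, hTL w hw⟩, hw, rfl⟩)
          refine ⟨⟨w, hTL w hw⟩, ?_, rfl⟩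
          by_cases h4 : w ∈ V
          · have h5 : inv' ⟨w, hTL w hw⟩ = ⟨w, hTL w hw⟩ := if_pos h4
            rwa [h5] at h3
          · have h5 : inv' ⟨w, hTL w hw⟩ = (⟨w, hTL w hw⟩ : L)⁻¹ := if_neg h4
            rw [h5] at h3
            have h6 := (Subfield.closure ((ρ.range : Set L) ∪ G)).inv_mem h3
            rwa [inv_inv] at h6
      obtain ⟨z', hz', h3⟩ := h2 z.2
      have h4 : z' = z := Subtype.ext h3
      rwa [h4] at hz'
    obtain ⟨x, hx, y, hy, hxy⟩ := Subfield.mem_closure_iff.1 h1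
    by_cases h0 : y = 0
    · exact ⟨0, A.zero_mem, 1, A.one_mem, one_ne_zero, by rw [← hxy, h0]; simp⟩
    · exact ⟨x, hx, y, hy, h0, by rw [← hxy]; exact div_eq_mul_inv _ _⟩
  obtain ⟨h1, h2⟩ := Pool.Agent.TH188.QS.main_sd hj_field ρ hG hAV le_rfl
    (fun b hb => ⟨b, hb, 1, A.one_mem, one_ne_zero, by rw [inv_one]; exact A.one_mem, by
      rw [inv_one, mul_one]⟩)
    (Or.inl ⟨n, sd_of_discrete n ρ _ (fun c => hkV c) hV⟩)
  have hρN : IsNoetherianRing ρ.range := by
    have h3 : IsNoetherianRing k := inferInstance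
    exact isNoetherianRing_of_surjective k ρ.range ρ.rangeRestrict ρ.rangeRestrict_surjective
  have h4 := inv_base V L ρ.range G hG ⟨hAV, hfr⟩ (h1.logUnif hAV)
  have h5 : ρ.range.map L.subtype = (algebraMap k K).range := by
    rw [RingHom.map_range]
    rfl
  rwa [h5] at h4

end base

end Pool.Agent.X140.CP
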