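import Pool.Agent.X140.CP.Core
import Pool.Agent.W418.LU2.Final

/-!
# Regular local rings in composita
-/

set_option autoImplicit false
set_option linter.unusedSectionVars false
set_option linter.unusedVariables false

universe u

open IsLocalRing TensorProduct Pool.Agent.W418.LU2

namespace Pool.Agent.X140.CP

section

variable (k E1 E2 : Type u) {F : Type u} [Field k] [Field E1] [Field E2] [Field F]
  [Algebra k E1] [Algebra k E2] [Algebra k F] [Algebra E1 F] [Algebra E2 F]
  [IsScalarTower k E1 F] [IsScalarTower k E2 F]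

/-- Linear disjointness. -/
def LinDisj (F : Type u) [Field F] [Algebra k F] [Algebra E1 F] [Algebra E2 F]
    [IsScalarTower k E1 F] [IsScalarTower k E2 F] : Prop :=
  Function.Injective (Algebra.TensorProduct.productMap (IsScalarTower.toAlgHom k E1 F)
    (IsScalarTower.toAlgHom k E2 F))

/-- The residues of elements of `E1` which are independent over `k` are independent over the
residue field of `E2`, and more. -/
def ResDisj (V : ValuationSubring F) : Prop :=
  ∀ (n : ℕ) (a : Fin n → E1) (b : Fin n → E2),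
    (∀ c : Fin n → k, c ≠ 0 → V.valuation (algebraMap E1 F (∑ i, c i • a i)) = 1) →
    ∀ i, V.valuation (algebraMap E2 F (b i)) ≤
      V.valuation (∑ i, algebraMap E1 F (a i) * algebraMap E2 F (b i))

variable {k E1 E2}

/-- The subring as an algebra. -/
abbrev salg {E : Type u} [Field E] [Algebra k E] (P : Subring E)
    (hk : ∀ c : k, algebraMap k E c ∈ P) : Algebra k P :=
  ((algebraMap k E).codRestrict P hk).toAlgebra

lemma mem_max_of_dom {E : Type u} [Field E] {V : ValuationSubring E} {P : Subring E} {ι : Type}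
    [Fintype ι] {x : ι → E} (h : RegP V.toSubring P x) [IsLocalRing P] (y : P) :
    y ∈ maximalIdeal P ↔ V.valuation (y : E) < 1 := by
  rw [h.mem_max]
  have hy : V.valuation (y : E) ≤ 1 := (V.valuation_le_one_iff _).2 (h.PA y.2)
  constructor
  · intro h1
    refine lt_of_le_of_ne hy fun h2 => h1 ⟨?_, ?_⟩
    · intro h3
      rw [h3, map_zero] at h2
      exact zero_ne_one h2
    · change (y : E)⁻¹ ∈ V
      rw [← V.valuation_le_one_iff, map_inv₀, h2, inv_one]
  · rintro h1 ⟨h2, h3⟩
    have h4 : (y : E)⁻¹ ∈ V := h3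
    rw [← V.valuation_le_one_iff, map_inv₀] at h4
    have h5 : (1 : V.ValueGroup) ≤ V.valuation (y : E) :=
      (inv_le_one₀ (zero_lt_iff.2 ((map_ne_zero _).2 h2))).1 h4
    exact absurd h1 (not_lt.2 h5)

lemma comap_val {E : Type u} [Field E] [Algebra E F] (V : ValuationSubring F) (z : E) :
    (V.comap (algebraMap E F)).valuation z < 1 ↔ V.valuation (algebraMap E F z) < 1 := by
  have h1 : ∀ w : E, (V.comap (algebraMap E F)).valuation w ≤ 1 ↔
      V.valuation (algebraMap E F w) ≤ 1 := by
    intro w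
    rw [ValuationSubring.valuation_le_one_iff, ValuationSubring.valuation_le_one_iff]
    exact Iff.rfl
  by_cases hz : z = 0
  · subst hz; simp
  have hz' : algebraMap E F z ≠ 0 := (map_ne_zero _).2 hz
  have h2 := h1 z⁻¹
  rw [map_inv₀, map_inv₀, map_inv₀] at h2
  have h3 : ((V.comap (algebraMap E F)).valuation z)⁻¹ ≤ 1 ↔
      1 ≤ (V.comap (algebraMap E F)).valuation z :=
    inv_le_one₀ (zero_lt_iff.2 ((map_ne_zero _).2 hz))
  have h4 : (V.valuation (algebraMap E F z))⁻¹ ≤ 1 ↔ 1 ≤ V.valuation (algebraMap E F z) :=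
    inv_le_one₀ (zero_lt_iff.2 ((map_ne_zero _).2 hz'))
  rw [← not_le, ← not_le, not_iff_not]
  rw [← h3, ← h4]
  exact h2

variable (V : ValuationSubring F) (P1 : Subring E1) (P2 : Subring E2)

/-- The compositum of the two rings. -/
def comp2 : Subring F := Subring.closure
  ((P1.map (algebraMap E1 F) : Set F) ∪ (P2.map (algebraMap E2 F) : Set F))


/-- The nonunits of a regular system. -/
lemma RegP.exists_ind {E : Type u} [Field E] {A P : Subring E} {ι : Type} [Fintype ι] {x : ι → E}
    (h : RegP A P x) (hx : ∀ i, (x i)⁻¹ ∉ A) [hreg : IsRegularLocalRing P] :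
    ∃ (m : ℕ) (w : Fin m → P), Ideal.span (Set.range (Sum.elim (fun i => (⟨x i, h.mem i⟩ : P)) w)) =
      maximalIdeal P ∧ Ind (Sum.elim (fun i => (⟨x i, h.mem i⟩ : P)) w) := by
  have h0 : Ind (fun i => (⟨x i, h.mem i⟩ : P)) :=
    h.ind.ind (id : ι → ι) Function.injective_id fun i => by
      rw [h.mem_max]
      exact fun h1 => hx i h1.2
  obtain ⟨m, w, hw, hd⟩ := h0.extend
  refine ⟨m, w, hw, ind_of_span hw ?_⟩
  rw [hd, Fintype.card_sum, Fintype.card_fin]

theorem prod_reg (hk1 : ∀ c : k, algebraMap k E1 c ∈ P1) (hk2 : ∀ c : k, algebraMap k E2 c ∈ P2)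
    {ι1 ι2 : Type} [Fintype ι1] [Fintype ι2] {x : ι1 → E1} {y : ι2 → E2}
    (h1 : RegP (V.comap (algebraMap E1 F)).toSubring P1 x)
    (h2 : RegP (V.comap (algebraMap E2 F)).toSubring P2 y)
    (hx : ∀ i, (x i)⁻¹ ∉ V.comap (algebraMap E1 F))
    (hy : ∀ i, (y i)⁻¹ ∉ V.comap (algebraMap E2 F))
    (hLD : LinDisj k E1 E2 F) (hRD : ResDisj k E1 E2 V)
    (hN : IsNoetherianRing (lo V.toSubring (comp2 P1 P2 : Subring F))) :
    RegP V.toSubring (lo V.toSubring (comp2 P1 P2))
      (Sum.elim (fun i => algebraMap E1 F (x i)) fun j => algebraMap E2 F (y j)) := by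
  classical
  let _ := salg P1 hk1
  let _ := salg P2 hk2
  have hreg1 := h1.reg
  have hreg2 := h2.reg
  obtain ⟨m1, w1, hw1, hi1⟩ := RegP.exists_ind h1 hx
  obtain ⟨m2, w2, hw2, hi2⟩ := RegP.exists_ind h2 hy
  -- the homomorphism
  let f1 : P1 →ₐ[k] E1 := { P1.subtype with commutes' := fun c => rfl }
  let f2 : P2 →ₐ[k] E2 := { P2.subtype with commutes' := fun c => rfl }
  let g : E1 ⊗[k] E2 →ₐ[k] F := Algebra.TensorProduct.productMap (IsScalarTower.toAlgHom k E1 F)
    (IsScalarTower.toAlgHom k E2 F)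
  let φ : P1 ⊗[k] P2 →ₐ[k] F := g.comp (Algebra.TensorProduct.map f1 f2)
  have hφt : ∀ (a : P1) (b : P2), φ (a ⊗ₜ b) = algebraMap E1 F a * algebraMap E2 F b := by
    intro a b
    change g ((Algebra.TensorProduct.map f1 f2) (a ⊗ₜ b)) = _
    rw [Algebra.TensorProduct.map_tmul]
    exact Algebra.TensorProduct.productMap_apply_tmul _ _ _ _
  have hφ : Function.Injective φ := by
    refine hLD.comp ?_
    exact TensorProduct.map_injective_of_flat_flat f1.toLinearMap f2.toLinearMap
      Subtype.val_injective Subtype.val_injective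
  have hr1 : ∀ b, φ b ∈ comp2 P1 P2 := by
    intro b
    induction b using TensorProduct.induction_on with
    | zero => rw [map_zero]; exact Subring.zero_mem _
    | tmul a b =>
      rw [hφt]
      exact Subring.mul_mem _ (Subring.subset_closure (Or.inl ⟨a, a.2, rfl⟩))
        (Subring.subset_closure (Or.inr ⟨b, b.2, rfl⟩))
    | add a b ha hb => rw [map_add]; exact Subring.add_mem _ ha hb
  have hr2 : ∀ z ∈ comp2 P1 P2, ∃ b, φ b = z := by
    intro z hz
    have h3 : comp2 P1 P2 ≤ (φ : P1 ⊗[k] P2 →+* F).range := by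
      unfold comp2
      rw [Subring.closure_le]
      rintro z (⟨a, ha, rfl⟩ | ⟨a, ha, rfl⟩)
      · refine ⟨(⟨a, ha⟩ : P1) ⊗ₜ 1, ?_⟩
        change φ _ = _
        rw [hφt]
        simp
      · refine ⟨1 ⊗ₜ (⟨a, ha⟩ : P2), ?_⟩
        change φ _ = _
        rw [hφt]
        simp
    exact h3 hz
  have hCV : comp2 P1 P2 ≤ V.toSubring := by
    unfold comp2
    rw [Subring.closure_le]
    rintro z (⟨a, ha, rfl⟩ | ⟨a, ha, rfl⟩)
    · exact h1.PA ha
    · exact h2.PA ha
  set Q : Subring F := lo V.toSubring (comp2 P1 P2) with hQ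
  have hloc : IsLocalRing Q := isLocalRing_lo (loc_V V) hCV
  let ψ : P1 ⊗[k] P2 →+* Q := (φ : P1 ⊗[k] P2 →+* F).codRestrict Q fun b => le_lo _ _ (hr1 b)
  let _ : Algebra (P1 ⊗[k] P2) Q := ψ.toAlgebra
  have hψ : ∀ b, ((algebraMap (P1 ⊗[k] P2) Q b : Q) : F) = φ b := fun b => rfl
  -- the centre
  let n : Ideal (P1 ⊗[k] P2) := (maximalIdeal Q).comap ψ
  have hn : n.IsPrime := Ideal.comap_isPrime ψ (maximalIdeal Q)
  have hQmax : ∀ q : Q, q ∈ maximalIdeal Q ↔ V.valuation (q : F) < 1 := by
    intro q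
    rw [mem_maximalIdeal, mem_nonunits_iff, isUnit_lo_iff hCV]
    have hqV : V.valuation (q : F) ≤ 1 := (V.valuation_le_one_iff _).2 (lo_le hCV q.2)
    constructor
    · intro h3
      refine lt_of_le_of_ne hqV fun h4 => h3 ⟨?_, ?_⟩
      · intro h5
        rw [h5, map_zero] at h4
        exact zero_ne_one h4
      · change (q : F)⁻¹ ∈ V
        rw [← V.valuation_le_one_iff, map_inv₀, h4, inv_one]
    · rintro h3 ⟨h4, h5⟩
      have h6 : (q : F)⁻¹ ∈ V := h5
      rw [← V.valuation_le_one_iff, map_inv₀] at h6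
      exact absurd h3 (not_lt.2 ((inv_le_one₀ (zero_lt_iff.2 ((map_ne_zero _).2 h4))).1 h6))
  have hmem : ∀ b, b ∈ n ↔ V.valuation (φ b) < 1 := fun b => hQmax (ψ b)
  have hL : IsLocalization.AtPrime Q n :=
    { map_units := fun b => by
        by_contra hcon
        have h3 : ψ b.1 ∈ maximalIdeal Q := (mem_maximalIdeal _).2 hcon
        exact b.2 h3
      surj := by
        rintro ⟨z, a, ha, b, hb, hb0, hbW, rfl⟩
        obtain ⟨a', ha'⟩ := hr2 a ha
        obtain ⟨b', hb'⟩ := hr2 b hb
        refine ⟨(a', ⟨b', ?_⟩), ?_⟩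
        · change b' ∉ n
          rw [hmem, hb', not_lt]
          have h3 : b⁻¹ ∈ V := hbW
          rw [← V.valuation_le_one_iff, map_inv₀] at h3
          exact (inv_le_one₀ (zero_lt_iff.2 ((map_ne_zero _).2 hb0))).1 h3
        · apply Subtype.ext
          change a * b⁻¹ * φ b' = φ a'
          rw [hb', ha', mul_assoc, inv_mul_cancel₀ hb0, mul_one]
      exists_of_eq := by
        intro a b h
        refine ⟨1, ?_⟩
        have h3 : a = b := hφ (congrArg (Subtype.val : Q → F) h)
        rw [h3] }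
  have hm1 : ∀ p : P1, p ∈ maximalIdeal P1 ↔ V.valuation (algebraMap E1 F p) < 1 := fun p => by
    rw [mem_max_of_dom h1, comap_val]
  have hm2 : ∀ p : P2, p ∈ maximalIdeal P2 ↔ V.valuation (algebraMap E2 F p) < 1 := fun p => by
    rw [mem_max_of_dom h2, comap_val]
  have hP1 : ∀ p : P1, V.valuation (algebraMap E1 F p) ≤ 1 := fun p =>
    (V.valuation_le_one_iff _).2 (h1.PA p.2)
  have hP2 : ∀ p : P2, V.valuation (algebraMap E2 F p) ≤ 1 := fun p =>
    (V.valuation_le_one_iff _).2 (h2.PA p.2)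
  have hJn : JJ (k := k) (maximalIdeal P1) (maximalIdeal P2) ≤ n := by
    unfold JJ
    refine sup_le ?_ ?_
    · rw [Ideal.map_le_iff_le_comap]
      intro a ha
      change a ⊗ₜ 1 ∈ n
      rw [hmem, hφt]
      have := (hm1 a).1 ha
      simpa using this
    · rw [Ideal.map_le_iff_le_comap]
      intro a ha
      change 1 ⊗ₜ a ∈ n
      rw [hmem, hφt]
      have := (hm2 a).1 ha
      simpa using this
  have hnJ : n = JJ (k := k) (maximalIdeal P1) (maximalIdeal P2) := by
    refine le_antisymm ?_ hJn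
    intro b hb
    rw [mem_JJ]
    set t := Algebra.TensorProduct.map (Ideal.Quotient.mkₐ k (maximalIdeal P1))
      (Ideal.Quotient.mkₐ k (maximalIdeal P2)) b with ht
    let 𝓑 := Module.Basis.ofVectorSpace k (P1 ⧸ maximalIdeal P1)
    obtain ⟨c, hc⟩ := TensorProduct.eq_repr_basis_left (N := P2 ⧸ maximalIdeal P2) 𝓑 t
    choose u hu using fun i => Ideal.Quotient.mk_surjective (I := maximalIdeal P1) (𝓑 i)
    choose v hv using fun i => Ideal.Quotient.mk_surjective (I := maximalIdeal P2) (c i)
    let b' : P1 ⊗[k] P2 := ∑ i ∈ c.support, u i ⊗ₜ v i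
    have hb' : Algebra.TensorProduct.map (Ideal.Quotient.mkₐ k (maximalIdeal P1))
      (Ideal.Quotient.mkₐ k (maximalIdeal P2)) b' = t := by
      rw [← hc]
      change _ = ∑ i ∈ c.support, 𝓑 i ⊗ₜ c i
      rw [map_sum]
      refine Finset.sum_congr rfl fun i _ => ?_
      rw [Algebra.TensorProduct.map_tmul, ← hu i, ← hv i]
      rfl
    have hbb : b' ∈ n := by
      have h3 : b' - b ∈ n := by
        apply hJn
        rw [mem_JJ, map_sub, hb', ← ht, sub_self]
      have h4 := n.add_mem h3 hb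
      rwa [sub_add_cancel] at h4
    rw [hmem] at hbb
    have hsum : φ b' = ∑ i ∈ c.support, algebraMap E1 F (u i) * algebraMap E2 F (v i) := by
      change φ (∑ i ∈ c.support, u i ⊗ₜ v i) = _
      rw [map_sum]
      exact Finset.sum_congr rfl fun i _ => hφt _ _
    -- index by `Fin`
    let ε := c.support.equivFin
    have h5 := hRD c.support.card (fun i => (u (ε.symm i).1 : E1))
      (fun i => (v (ε.symm i).1 : E2)) (by
        intro d hd
        have h6 : (∑ i, d i • ((u (ε.symm i).1 : P1) : E1)) =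
            ((∑ i, d i • u (ε.symm i).1 : P1) : E1) := by
          change _ = f1 (∑ i, d i • u (ε.symm i).1)
          rw [map_sum]
          exact Finset.sum_congr rfl fun i _ => (map_smul f1 _ _).symm
        rw [h6]
        refine le_antisymm (hP1 _) (not_lt.1 fun h7 => hd ?_)
        rw [← hm1] at h7
        have h8 : (∑ i, d i • 𝓑 (ε.symm i).1) = 0 := by
          have h9 := Ideal.Quotient.eq_zero_iff_mem.2 h7
          rw [map_sum] at h9
          rw [← h9]
          refine Finset.sum_congr rfl fun i _ => ?_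
          have h10 : Ideal.Quotient.mk (maximalIdeal P1) (d i • u (ε.symm i).1) =
              d i • Ideal.Quotient.mk (maximalIdeal P1) (u (ε.symm i).1) :=
            map_smul (Ideal.Quotient.mkₐ k (maximalIdeal P1)) _ _
          rw [h10, hu]
        have h11 := Fintype.linearIndependent_iff.1 (𝓑.linearIndependent.comp
          (fun i => (ε.symm i).1) (Subtype.val_injective.comp ε.symm.injective)) d h8
        funext i
        exact h11 i)
    have hsum' : φ b' = ∑ i, algebraMap E1 F (u (ε.symm i).1 : E1) *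
        algebraMap E2 F (v (ε.symm i).1 : E2) := by
      rw [hsum, ← Finset.sum_coe_sort]
      exact (Equiv.sum_comp ε.symm (fun i : c.support => algebraMap E1 F (u i.1 : E1) *
        algebraMap E2 F (v i.1 : E2))).symm
    rw [← hsum'] at h5
    have h12 : c.support = ∅ := by
      rw [Finset.eq_empty_iff_forall_notMem]
      intro i hi
      have h13 := lt_of_le_of_lt (h5 (ε ⟨i, hi⟩)) hbb
      simp only [Equiv.symm_apply_apply] at h13
      rw [← hm2] at h13
      have h14 := Ideal.Quotient.eq_zero_iff_mem.2 h13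
      rw [hv] at h14
      exact (Finsupp.mem_support_iff.1 hi) h14
    rw [← hb']
    change Algebra.TensorProduct.map _ _ (∑ i ∈ c.support, u i ⊗ₜ v i) = 0
    rw [h12, Finset.sum_empty, map_zero]
  obtain ⟨hregQ, hind⟩ := regular_tensor' (k := k) hi1 hi2 hw1 hw2 n hnJ Q
  refine ⟨lo_le hCV, ?_, ?_, hregQ, fun z hz h0 hA => inv_mem_lo hCV hz h0 hA, ?_⟩
  · rintro (i | i)
    · exact (map_ne_zero _).2 (h1.ne i)
    · exact (map_ne_zero _).2 (h2.ne i)
  · rintro (i | i)
    · exact le_lo _ _ (Subring.subset_closure (Or.inl ⟨x i, h1.mem i, rfl⟩))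
    · exact le_lo _ _ (Subring.subset_closure (Or.inr ⟨y i, h2.mem i, rfl⟩))
  · have h3 := hind.comp (Sum.map (Sum.inl : ι1 → ι1 ⊕ Fin m1) (Sum.inl : ι2 → ι2 ⊕ Fin m2))
      (Sum.map_injective.2 ⟨Sum.inl_injective, Sum.inl_injective⟩)
    refine IndN.of_ind (id : ι1 ⊕ ι2 → ι1 ⊕ ι2) Function.injective_id (fun i _ => ⟨i, rfl⟩) ?_
    convert h3 using 1
    funext i
    rcases i with i | i
    · apply Subtype.ext
      change algebraMap E1 F (x i) = φ _
      rw [hφt]
      simp
    · apply Subtype.ext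
      change algebraMap E2 F (y i) = φ _
      rw [hφt]
      simp

end

end Pool.Agent.X140.CP
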